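import Pool.Agent.Lib.MP_99e3ed_co.Ratio.Defs

/-!
Ratio form of Kahn's conjecture: interfaces between the modules (all as `Prop`s, no proofs).
Every statement was checked numerically in exact arithmetic.
-/

set_option autoImplicit false

open Finset
open Classical
open Pool.Agent.Lib.MP_99e3ed_co.H90

namespace Pool.Agent.Lib.MP_99e3ed_co.Ratio

/-! ### module TA (algebra and positivity of `TT`, `AA`) -/

/-- shift in `s` -/
def TTShift : Prop := ∀ (d k n : ℕ) (s : ℝ), 1 ≤ d → d ≤ n →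
  TT d k n s = TT d k n (s - d) - TT d k (n - d) (s - d) / 2

def TTSmall : Prop := ∀ (d k n : ℕ) (s : ℝ), 1 ≤ d → n < k + d → 1 ≤ k →
  TT d k n s = (n.choose k : ℝ)

def TTPascal : Prop := ∀ (d k n : ℕ) (s : ℝ), 1 ≤ d →
  TT d (k + 1) (n + 1) s = TT d (k + 1) n s + TT d k n s

def TTRec : Prop := ∀ (d k n : ℕ) (s : ℝ), 1 ≤ d →
  ((k : ℝ) + 1) * TT d (k + 1) (n + 1) s =
    ((n : ℝ) + 1 - s) * TT d k n s + s * TT d k n (s - d)

/-- positivity, also for `-d ≤ s ≤ 0` -/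
def TTPos : Prop := ∀ (d k n : ℕ) (s : ℝ), 1 ≤ d → k ≤ n → -(d : ℝ) ≤ s → s < k * d →
  0 < TT d k n s

def TTZero : Prop := ∀ (d k n : ℕ) (s : ℝ), 1 ≤ d → n < k → TT d k n s = 0

def AAPascal : Prop := ∀ (d k : ℕ) (n s : ℝ),
  AA d (k + 1) (n + 1) s = AA d (k + 1) n s + AA d k n s

def AAShift : Prop := ∀ (d k : ℕ) (n s : ℝ),
  AA d k n s = 2 * AA d k n (s - d) - AA d k (n - d) (s - d)

/-- positivity, kind `A` -/
def AAPos : Prop := ∀ (d k : ℕ) (n s : ℝ), 3 ≤ d → 2 ≤ k → ((k : ℝ) - 2) * d ≤ s → s ≤ n →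
  ((k : ℝ) - 1) * d + 1 ≤ n → 0 < AA d k n s

/-- the two kinds agree at multiples of `d` -/
def AAMul : Prop := ∀ (d k n q : ℕ), 1 ≤ d → d * q ≤ n →
  AA d k n ((d * q : ℕ) : ℝ) = 2 ^ q * TT d k n ((d * q : ℕ) : ℝ)

/-- link to the counts of the extremal graph (`ph` of H90) -/
def TTph : Prop := ∀ (d k n q : ℕ), 1 ≤ d → d * q ≤ n →
  ((ph d k n q : ℚ) : ℝ) = 2 ^ q * TT d k n ((d * q : ℕ) : ℝ)

/-! ### negative `s`, switch and monotonicity -/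

/-- for `-d ≤ s ≤ 0` the `T` value is at least the exact value (`j w_j ≥ n+s`) -/
def TTNeg : Prop := ∀ (d j n : ℕ) (s : ℝ), 1 ≤ d → 1 ≤ j → j ≤ n → -(d : ℝ) ≤ s → s ≤ 0 →
  ((n : ℝ) + s) * TT d (j - 1) (n - 1) s ≤ j * TT d j n s

/-- switch from kind `A` to kind `T`, `j = q + 2`, `q = ⌊s/d⌋` -/
def Switch : Prop := ∀ (d j n s : ℕ), 3 ≤ d → 2 ≤ j → (j - 2) * d ≤ s → s < (j - 1) * d →
  s ≤ n → 1 ≤ s →
  AA d j n s * TT d (j - 1) n s ≤ TT d j n s * AA d (j - 1) n s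

/-- monotonicity for fixed number of vertices, kind `T` (also used at `s + 1 = (j-2) d`) -/
def MonoT : Prop := ∀ (d j n s : ℕ), 3 ≤ d → 3 ≤ j → 1 ≤ s → s < (j - 2) * d → s + 2 ≤ n →
  TT d j (n - 1) (s + 1) * TT d (j - 1) n s ≤ TT d j n s * TT d (j - 1) (n - 1) (s + 1)

/-- monotonicity for fixed number of vertices, kind `A` -/
def MonoA : Prop := ∀ (d j n s : ℕ), 3 ≤ d → 2 ≤ j → 1 ≤ s → (j - 2) * d ≤ s → s + 2 ≤ n →
  AA d j ((n : ℝ) - 1) (s + 1) * AA d (j - 1) n s ≤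
    AA d j n s * AA d (j - 1) ((n : ℝ) - 1) (s + 1)

/-- exported by helper84 (kind `T`): `w_k(n,s') ≥ w_k(n,s) (n+s')/(n+s)` for `s' = s - 1` -/
def TTb : Prop := ∀ (d k n s : ℕ), 3 ≤ d → 3 ≤ k → k ≤ n → 1 ≤ s → s < n → s < (k - 1) * d →
  ((n : ℝ) + s - 1) * (TT d k n s * TT d (k - 1) (n - 1) ((s : ℝ) - 1)) ≤
    ((n : ℝ) + s) * (TT d k n ((s : ℝ) - 1) * TT d (k - 1) (n - 1) s)

end Pool.Agent.Lib.MP_99e3ed_co.Ratio
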