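import Pool.Agent.Lib.MP_99e3ed_co.H90.Count

/-!
Ratio form of Kahn's conjecture (MP_99e3ed_co, frozen S10337): definitions and interfaces.

* `TT d k n s`  = normalised `T_k(n,s)` (normalisation `2^{-s/d}`), `n : ℕ`, `s : ℝ`
* `AA d k n s`  = unnormalised `A_k(n,s)`, `n s : ℝ`
* kinds: for the step `k → k+1` at `(n,s)`: kind `T` if `s < (k-1) d`, kind `A` if `(k-1) d ≤ s`
* `FAT`, `FAA` (helper84), `FB` (helper59), `ZZ` (helper87)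
-/

set_option autoImplicit false

open Finset
open Classical
open Pool.Agent.Lib.MP_99e3ed_co.H90

namespace Pool.Agent.Lib.MP_99e3ed_co.Ratio

/-- `cc y i = binom(y,i) (-1/2)^i` -/
noncomputable def cc (y : ℝ) : ℕ → ℝ
  | 0 => 1
  | i + 1 => cc y i * (-(y - i) / (2 * (i + 1)))

/-- `T_k(n,s) = ∑_{0 ≤ i ≤ n/d} binom(s/d,i) (-1/2)^i C(n-di,k)` -/
noncomputable def TT (d k n : ℕ) (s : ℝ) : ℝ :=
  ∑ i ∈ range (n / d + 1), cc (s / d) i * ((n - d * i).choose k : ℝ)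

/-- `A_k(n,s) = [x^k] (1+x)^(n-s) (2(1+x)^d-1)^(s/d)`, through its recursion -/
noncomputable def AA (d : ℕ) : ℕ → ℝ → ℝ → ℝ
  | 0, _, _ => 1
  | k + 1, n, s => ((n - s) * AA d k (n - 1) s + 2 * s * AA d k (n - 1) (s - d)) / (k + 1)

/-- `G = 1/w`, kind `T` -/
noncomputable def GT (d k n : ℕ) (s : ℝ) : ℝ := TT d (k - 1) (n - 1) s / TT d k n s

/-- `G = 1/w`, kind `A` -/
noncomputable def GA (d k : ℕ) (n s : ℝ) : ℝ := AA d (k - 1) (n - 1) s / AA d k n s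

/-- the true value at the vertices: for `s ≤ 0` the exact value `k/(n+s)`, otherwise kind `T` -/
noncomputable def GTp (d k n : ℕ) (s : ℝ) : ℝ := if s ≤ 0 then k / (n + s) else GT d k n s

/-- the region in which (Z) is proved for kind `T` (constants agreed with helper59, helper98) -/
def ZReg (d k n s : ℕ) : Prop :=
  (k = 3 ∧ (5 * (k * d) + 6 * k ≤ 6 * n ∨ 100 * (k * d) + 73 * k ≤ 73 * (n + s))) ∨
  (k = 4 ∧ (100 * (k * d) + 139 * k ≤ 139 * n ∨ 100 * (k * d) + 74 * k ≤ 74 * (n + s))) ∨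
  (k = 5 ∧ 6 ≤ d ∧ (20 * (k * d) + 31 * k ≤ 31 * n ∨ 100 * (k * d) + 83 * k ≤ 83 * (n + s))) ∨
  (6 ≤ k ∧ 6 ≤ d ∧ (5 * (k * d) + 8 * k ≤ 8 * n ∨ 100 * (k * d) + 83 * k ≤ 83 * (n + s))) ∨
  (5 ≤ k ∧ d ≤ 5 ∧ (k * d + 2 * k ≤ 2 * n ∨ 10 * (k * d) + 9 * k ≤ 9 * (n + s)))

/-- (F-A), kind `T` (helper84) -/
def FAT : Prop := ∀ d k n s δ : ℕ, 3 ≤ d → 3 ≤ k → k ≤ n → 1 ≤ s → s < n → s < (k - 1) * d →
  1 ≤ δ → δ < d → k + δ ≤ n + s →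
  (1 - (δ : ℝ) / (n + s)) * (GT d k n ((s : ℝ) - d) - GTp d k n ((s : ℝ) - δ)) ≤
    (1 - (δ : ℝ) / d) * (GT d k n ((s : ℝ) - d) - GT d k n s)

/-- (F-A), kind `A` (helper84) -/
def FAA : Prop := ∀ d k n s δ : ℕ, 3 ≤ d → 2 ≤ k → (k - 1) * d ≤ s → s < n →
  1 ≤ δ → δ < d →
  (1 - (δ : ℝ) / (n + s)) * (GA d k n ((s : ℝ) - d) - GA d k n ((s : ℝ) - δ)) ≤
    (1 - (δ : ℝ) / d) * (GA d k n ((s : ℝ) - d) - GA d k n s)

/-- (F-B), kind `T` (helper59) -/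
def FB : Prop := ∀ d k n s δ : ℕ, 3 ≤ d → 3 ≤ k → k ≤ n → 1 ≤ s → s < n → s < (k - 1) * d →
  1 ≤ δ → δ < d → k + δ ≤ n + s → ¬ ZReg d k n s →
  (1 - (δ : ℝ) / d) * GT d k n s + (δ : ℝ) / d * GT d k n ((s : ℝ) - d) ≤
    GTp d k n ((s : ℝ) - δ)

/-- (Z) (helper87) -/
def ZZ : Prop := ∀ {V : Type} (G : SimpleGraph V) (S : Finset V) (v : V) (d k n s : ℕ),
  3 ≤ d → 3 ≤ k → S.card = n + s → (∀ u ∈ S, (nb G S u).card ≤ d) →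
  ed G S S < 2 * (d * (s + 1)) → v ∈ S → 1 ≤ (nb G S v).card → (nb G S v).card < d →
  (ZReg d k n s ∨ ((k - 1) * d ≤ s ∧ s < n)) →
  ((n : ℝ) + s) * (cnt G (S \ nb G S v) k : ℝ) ≤
    ((n : ℝ) + s - (nb G S v).card) * (cnt G S k : ℝ)

end Pool.Agent.Lib.MP_99e3ed_co.Ratio
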